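import Mathlib
import Pool.Agent.W562.HY.Defs

/-!
Project HY: the stuck lemma (part MS).
-/

set_option autoImplicit false

namespace Pool.Agent.W38.HY

open Pool.Agent.W562.HY

lemma blk_Y' (S : Str) (Y' V : S.R) (j k : ℕ) (h : S.app Y' k = S.app V (Nat.pair j k)) :
    blk S Y' k = dF (S.app V (Nat.pair j k)) := by
  unfold blk; rw [h]

lemma cA_le_sum (A : Set ℕ) (s : Finset ℕ) (m : ℕ) (D : ℕ → Finset ℕ)
    (h : ∀ x ∈ s, ∃ j < m, x ∈ D j) : cA A s ≤ ∑ j ∈ Finset.range m, cA A (D j) := by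
  classical
  have key : ∀ t : Finset ℕ, cA A t = (t.filter (fun x => x ∈ A)).card := by
    intro t
    unfold cA
    have : ((t : Set ℕ) ∩ A) = ((t.filter (fun x => x ∈ A) : Finset ℕ) : Set ℕ) := by
      ext x; simp
    rw [this, Set.ncard_coe_finset]
  simp only [key]
  refine (Finset.card_le_card ?_).trans Finset.card_biUnion_le
  intro x hx
  rw [Finset.mem_filter] at hx
  obtain ⟨j, hj, hxj⟩ := h x hx.1
  rw [Finset.mem_biUnion]
  exact ⟨j, Finset.mem_range.2 hj, Finset.mem_filter.2 ⟨hxj, hx.2⟩⟩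

theorem main : Pool.Agent.W562.HY.P_ms := by
  classical
  intro S A 𝒰 hU c n F Y a b hopn hno hFA hstuck
  have hKY : KK S Y ∈ 𝒰 := Filter.mem_of_superset hno.dens (fun k hk => hk.1)
  obtain ⟨κ', J, hκ, hJ1, hJ2⟩ := hU.uj c n F Y a b hno.pos hopn hKY
  have claim : ∀ E : ℕ, (∀ x ∈ dF E, x ∈ A) → (∀ x ∈ dF E, InU S x Y) → S.app J E = 1 := by
    intro E hEA hEY
    by_contra hne
    obtain ⟨m, k0, V, W, hV, hW⟩ := hJ1 E hEY hne
    have hbase : {k | k0 ≤ k} ∩ KK S κ' ∈ 𝒰 := Filter.inter_mem (hU.free k0) hκ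
    obtain ⟨ε, hε, hεU⟩ := hno.opt W (Filter.mem_of_superset hbase (fun k hk =>
      ⟨(hW k hk.1 hk.2).1, (hW k hk.1 hk.2).2.2⟩))
    have hm1 : (0:ℝ) < (m : ℝ) + 1 := by positivity
    have hT : ∀ j ∈ Finset.range m,
        {k | (cA A (dF (S.app V (Nat.pair j k))) : ℝ) ≤ ε / ((m : ℝ) + 1) *
          ((blk S Y k).card : ℝ)} ∈ 𝒰 := by
      intro j hj
      obtain ⟨Y', F', h1, h2, h3, h4, h5, h6⟩ := hV j (Finset.mem_range.1 hj)
      have hle : Le S F' Y' F Y := by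
        refine ⟨h2, fun x hx => ?_, h5⟩
        rcases Finset.mem_union.1 (h3 hx) with h | h
        · exact Or.inl h
        · exact Or.inr (hEY x h)
      have hA' : ∀ x ∈ dF F', x ∈ A := by
        intro x hx
        rcases Finset.mem_union.1 (h3 hx) with h | h
        · exact hFA x h
        · exact hEA x h
      have hns : ¬ Subst S A 𝒰 Y' := fun hs => hstuck ⟨F', Y', hle, ⟨hA', hs⟩, h4⟩
      have hnot : {k | (blk S Y' k).Nonempty ∧
          ε / ((m : ℝ) + 1) * ((blk S Y' k).card : ℝ) ≤ cA A (blk S Y' k)} ∉ 𝒰 := fun h =>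
        hns ⟨ε / ((m : ℝ) + 1), div_pos hε hm1, h⟩
      have hc := Ultrafilter.compl_mem_iff_notMem.2 hnot
      filter_upwards [hc, hbase] with k hk1 hk2
      have hk3 : (blk S Y' k).Nonempty := h6 k hk2.1 hk2.2
      have hk4 : ¬ (ε / ((m : ℝ) + 1) * ((blk S Y' k).card : ℝ) ≤ cA A (blk S Y' k)) :=
        fun h => hk1 ⟨hk3, h⟩
      push Not at hk4
      have hk5 : blk S Y' k ⊆ blk S Y k := h5.1 k
      have hk6 : ((blk S Y' k).card : ℝ) ≤ ((blk S Y k).card : ℝ) := by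
        exact_mod_cast Finset.card_le_card hk5
      have h7 : ε / ((m : ℝ) + 1) * ((blk S Y' k).card : ℝ) ≤
          ε / ((m : ℝ) + 1) * ((blk S Y k).card : ℝ) :=
        mul_le_mul_of_nonneg_left hk6 (div_pos hε hm1).le
      rw [blk_Y' S Y' V j k (h1 k)] at hk4
      have h8 : ((blk S Y' k).card : ℝ) = ((dF (S.app V (Nat.pair j k))).card : ℝ) := by
        rw [blk_Y' S Y' V j k (h1 k)]
      rw [h8] at h7
      show (cA A (dF (S.app V (Nat.pair j k))) : ℝ) ≤ _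
      linarith
    have hall := (Filter.biInter_finset_mem (Finset.range m)).2 hT
    have hfin := Filter.inter_mem (Filter.inter_mem hall hbase) (Filter.inter_mem hKY hεU)
    obtain ⟨k, ⟨⟨hk1, hk2⟩, hk3, hk4⟩⟩ := Filter.nonempty_of_mem hfin
    have hpos : (0:ℝ) < ((blk S Y k).card : ℝ) := by
      exact_mod_cast Finset.card_pos.2 hk3
    have hcov := (hW k hk2.1 hk2.2).2.1
    have hs := cA_le_sum A (blk S W k) m (fun j => dF (S.app V (Nat.pair j k))) hcov
    have hs' : (cA A (blk S W k) : ℝ) ≤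
        ∑ j ∈ Finset.range m, (cA A (dF (S.app V (Nat.pair j k))) : ℝ) := by exact_mod_cast hs
    have hs2 : ∑ j ∈ Finset.range m, (cA A (dF (S.app V (Nat.pair j k))) : ℝ) ≤
        ∑ _j ∈ Finset.range m, ε / ((m : ℝ) + 1) * ((blk S Y k).card : ℝ) := by
      refine Finset.sum_le_sum (fun j hj => ?_)
      have := Set.mem_iInter₂.1 hk1 j hj
      exact this
    rw [Finset.sum_const, Finset.card_range, nsmul_eq_mul] at hs2
    have hk4' : ε * ((blk S Y k).card : ℝ) ≤ cA A (blk S W k) := hk4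
    have h9 : (m : ℝ) * (ε / ((m : ℝ) + 1) * ((blk S Y k).card : ℝ)) <
        ε * ((blk S Y k).card : ℝ) := by
      have h10 : (m : ℝ) * (ε / ((m : ℝ) + 1)) < ε := by
        rw [mul_div_assoc', div_lt_iff₀ hm1]
        nlinarith
      calc (m : ℝ) * (ε / ((m : ℝ) + 1) * ((blk S Y k).card : ℝ))
          = (m : ℝ) * (ε / ((m : ℝ) + 1)) * ((blk S Y k).card : ℝ) := by ring
        _ < ε * ((blk S Y k).card : ℝ) := mul_lt_mul_of_pos_right h10 hpos
    linarith
  obtain ⟨Z0, hZ1, hZ2, hZ3, hZ4⟩ := hU.uc Y J (2 * a) b (by have := hno.pos; omega) claim hno.dens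
  have hinf : (KK S Z0 ∩ KK S κ').Infinite := by
    intro hf
    obtain ⟨N, hN⟩ := hf.bddAbove
    have h1 := Filter.inter_mem (Filter.inter_mem hZ2 hκ) (hU.free (N + 1))
    obtain ⟨k, hk1, hk2⟩ := Filter.nonempty_of_mem h1
    have := hN hk1
    have hk2' : N + 1 ≤ k := hk2
    omega
  obtain ⟨Z, hz1, hz2, ⟨k0, hk0⟩, hz3, hz4⟩ := hJ2 Z0 hZ1 hinf hZ3 hZ4
  refine ⟨Z, fun k => (hz1 k).trans (hZ1 k), ?_, hz3, hz4⟩
  exact Filter.mem_of_superset (Filter.inter_mem (Filter.inter_mem hZ2 hκ) (hU.free k0))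
    (fun k hk => hk0 k hk.2 hk.1.1 hk.1.2)

end Pool.Agent.W38.HY
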