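import Mathlib
import Pool.Agent.W562.HY.Defs

/-!
Project HY: the truth lemma (part TRUTH).
-/

set_option autoImplicit false

namespace Pool.Agent.W38.HY.Truth

open Encodable Denumerable
open Pool.Agent.W562.HY

lemma LeR_trans {S : Str} {Z Y' Y : S.R} (h1 : LeR S Z Y') (h2 : LeR S Y' Y) : LeR S Z Y := by
  obtain ⟨a1, a2, p1, q1, a3, a4⟩ := h1
  obtain ⟨b1, b2, p2, q2, b3, b4⟩ := h2
  refine ⟨fun k => (a1 k).trans (b1 k), a2, p1 * p2, q1 * q2, Nat.mul_pos a3 b3, fun k hk => ?_⟩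
  have hk' : k ∈ KK S Y' := by
    obtain ⟨x, hx⟩ := hk
    exact ⟨x, a1 k hx⟩
  have e1 := a4 k hk
  have e2 := b4 k hk'
  calc p1 * p2 * (blk S Y k).card = p1 * (p2 * (blk S Y k).card) := by ring
    _ ≤ p1 * (q2 * (blk S Y' k).card) := Nat.mul_le_mul_left _ e2
    _ = q2 * (p1 * (blk S Y' k).card) := by ring
    _ ≤ q2 * (q1 * (blk S Z k).card) := Nat.mul_le_mul_left _ e1
    _ = q1 * q2 * (blk S Z k).card := by ring

lemma Le_trans {S : Str} {F'' F' F : ℕ} {Y'' Y' Y : S.R} (h1 : Le S F'' Y'' F' Y')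
    (h2 : Le S F' Y' F Y) : Le S F'' Y'' F Y := by
  obtain ⟨a1, a2, a3⟩ := h1
  obtain ⟨b1, b2, b3⟩ := h2
  refine ⟨b1.trans a1, fun n hn => ?_, LeR_trans a3 b3⟩
  rcases a2 n hn with h | ⟨k, hk⟩
  · exact b2 n h
  · exact Or.inr ⟨k, b3.1 k hk⟩

lemma Le_refl {S : Str} {F : ℕ} {Y : S.R} (h : (KK S Y).Infinite) : Le S F Y F Y :=
  ⟨fun _ h => h, fun _ h => Or.inl h, fun _ _ h => h, h, 1, 1, one_pos, fun _ _ => le_rfl⟩

lemma gen_le {S : Str} {A X : Set ℕ} {F : ℕ → ℕ} {Y : ℕ → S.R} (G : Gen S A X F Y) {i j : ℕ}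
    (h : i ≤ j) : Le S (F j) (Y j) (F i) (Y i) := by
  induction j, h using Nat.le_induction with
  | base => exact Le_refl (G.inf' i)
  | succ j _ ih => exact Le_trans (G.le j) ih

lemma perp_mono {S : Str} {c : S.C} {n F F' : ℕ} {Y Y' : S.R} (h : Perp S c n F Y)
    (hle : Le S F' Y' F Y) : Perp S c n F' Y' := fun _ _ h1 => h _ _ (Le_trans h1 hle)

/-- an open section which is dense is met -/
lemma dense_met {S : Str} {A X : Set ℕ} {F : ℕ → ℕ} {Y : ℕ → S.R} (G : Gen S A X F Y) (c : S.C)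
    (n : ℕ) (ho : Opn S c n) (i : ℕ) (hd : DB S c n (F i) (Y i)) :
    ∃ j, i ≤ j ∧ S.mem c (Nat.pair n (F j)) (Y j) := by
  obtain ⟨i0, h⟩ := G.gen c n ho
  refine ⟨max i i0, le_max_left _ _, ?_⟩
  have l1 := gen_le G (le_max_left i i0)
  have l2 := gen_le G (le_max_right i i0)
  rcases h with h | h
  · exact ho _ _ _ _ l2 h
  · obtain ⟨F'', Y'', e1, e2⟩ := hd _ _ l1
    exact absurd e2 (perp_mono h l2 _ _ e1)

lemma chi_eq {S : Str} {A X : Set ℕ} {F : ℕ → ℕ} {Y : ℕ → S.R} (G : Gen S A X F Y) (i l j : ℕ)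
    (hD : Dec S (Y i) l) (hj : j ≤ l) :
    chi (F i) j = (List.range j).map
      (({n | ∃ i, n ∈ dF (F i)} : Set ℕ).indicator fun _ => (1 : ℕ)) := by
  classical
  unfold chi
  refine List.map_congr_left (fun n hn => ?_)
  have hn' : n < j := List.mem_range.1 hn
  have hiff : n ∈ dF (F i) ↔ n ∈ ({n | ∃ i, n ∈ dF (F i)} : Set ℕ) := by
    constructor
    · intro h; exact ⟨i, h⟩
    · rintro ⟨i', h⟩
      rcases le_total i' i with h1 | h1
      · exact (gen_le G h1).1 h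
      · rcases (gen_le G h1).2.1 n h with h2 | ⟨k, hk⟩
        · exact h2
        · have := hD k n hk
          omega
  by_cases h : n ∈ dF (F i)
  · rw [if_pos h, Set.indicator_of_mem (hiff.1 h)]
  · rw [if_neg h, Set.indicator_of_notMem (fun h' => h (hiff.2 h'))]

lemma ok_iff {S : Str} {A X : Set ℕ} {F : ℕ → ℕ} {Y : ℕ → S.R} (G : Gen S A X F Y) (i l : ℕ)
    (hD : Dec S (Y i) l) (ρ : S.R) (x : ℕ) (σ : List ℕ) (hσ : σ.length ≤ l) :
    ok S ρ x (F i) σ ↔ okB S ρ x {n | ∃ i, n ∈ dF (F i)} σ := by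
  unfold ok okB
  rw [chi_eq G i l σ.length hD hσ]

/-- construction of sequences -/
lemma seq (Inv : List ℕ → Prop) (Rel : List ℕ → ℕ → Prop) (h0 : Inv [])
    (h : ∀ t, Inv t → ∃ v, Inv (t ++ [v]) ∧ Rel t v) :
    ∃ g : ℕ → ℕ, ∀ n, Inv ((List.range n).map g) ∧ Rel ((List.range n).map g) (g n) := by
  classical
  choose! v hv1 hv2 using h
  let T : ℕ → {t : List ℕ // Inv t} := fun n =>
    Nat.rec ⟨[], h0⟩ (fun _ t => ⟨t.1 ++ [v t.1], hv1 t.1 t.2⟩) n
  have hT0 : (T 0).1 = [] := rfl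
  have hTs : ∀ n, (T (n + 1)).1 = (T n).1 ++ [v (T n).1] := fun n => rfl
  have hT : ∀ n, (T n).1 = (List.range n).map (fun k => v (T k).1) := by
    intro n
    induction n with
    | zero => rw [hT0]; simp
    | succ n ih =>
      rw [hTs, List.range_succ, List.map_append, ← ih]
      simp
  refine ⟨fun k => v (T k).1, fun n => ?_⟩
  rw [← hT n]
  exact ⟨(T n).2, hv2 _ (T n).2⟩

lemma s1_append (t : List ℕ) (a b : ℕ) : s1 (t ++ [Nat.pair a b]) = s1 t ++ [a] := by
  simp [s1]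

lemma s2_append (t : List ℕ) (a b : ℕ) : s2 (t ++ [Nat.pair a b]) = s2 t ++ [b] := by
  simp [s2]

theorem main : Pool.Agent.W562.HY.P_truth := by
  classical
  intro S hSim A X F Y G ρ ρ' hall
  obtain ⟨U, O, Q, hopn, hcl⟩ := hSim ρ ρ'
  set B : Set ℕ := {n | ∃ i, n ∈ dF (F i)} with hB
  obtain ⟨x, i, hcase⟩ := G.gex U (encode ([] : List ℕ)) (fun x => (hopn _).1)
  rcases hcase with ⟨hx, hm⟩ | ⟨hx, hm⟩
  · -- `x ∉ X`
    obtain ⟨f', hf'⟩ := ((hall x).2).1 hx
    obtain ⟨g, hg⟩ := seq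
      (fun t => (∃ i, S.mem U (Nat.pair (Nat.pair x (encode t)) (F i)) (Y i)) ∧
        s1 t = (List.range t.length).map f')
      (fun t v => okB S ρ x B (s2 t ++ [v.unpair.2])) ⟨⟨i, hm⟩, by simp [s1]⟩ (by
        rintro t ⟨⟨i, hi⟩, ht⟩
        have c1 := (hcl x t (F i) (Y i) (G.grow i) (G.inf' i)).1 hi (f' t.length)
        obtain ⟨j, hij, hj⟩ := dense_met G O _ (hopn _).2.1 i c1
        obtain ⟨hD, h3⟩ := (hcl x t (F j) (Y j) (G.grow j) (G.inf' j)).2.2.1 (f' t.length) hj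
        have hlen1 : (s1 t ++ [f' t.length]).length ≤ t.length + 1 := by simp [s1]
        have hs : s1 t ++ [f' t.length] = (List.range (t.length + 1)).map f' := by
          rw [List.range_succ, List.map_append, ← ht]; simp
        have hok : ok S ρ' x (F j) (s1 t ++ [f' t.length]) := by
          rw [ok_iff G j _ hD ρ' x _ hlen1, hs]
          exact hf' _ (Nat.succ_pos _)
        rcases h3 with h3 | ⟨b, hb1, hb2⟩
        · exact absurd hok h3
        · refine ⟨Nat.pair (f' t.length) b, ⟨⟨j, hb2⟩, ?_⟩, ?_⟩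
          · rw [s1_append, hs]
            congr 2
            simp
          · rw [Nat.unpair_pair]
            have hlen2 : (s2 t ++ [b]).length ≤ t.length + 1 := by simp [s2]
            exact (ok_iff G j _ hD ρ x _ hlen2).1 hb1)
    refine hx (((hall x).1).2 ⟨fun k => (g k).unpair.2, fun m hm => ?_⟩)
    obtain ⟨n, rfl⟩ : ∃ n, m = n + 1 := ⟨m - 1, by omega⟩
    have h1 := (hg n).2
    rw [List.range_succ, List.map_append]
    have h2 : s2 ((List.range n).map g) = (List.range n).map (fun k => (g k).unpair.2) := by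
      unfold s2; rw [List.map_map]; rfl
    rw [h2] at h1
    exact h1
  · -- `x ∈ X`
    obtain ⟨f, hf⟩ := ((hall x).1).1 hx
    obtain ⟨g, hg⟩ := seq
      (fun t => (∃ i, Perp S U (Nat.pair x (encode t)) (F i) (Y i)) ∧
        s2 t = (List.range t.length).map f)
      (fun t v => okB S ρ' x B (s1 t ++ [v.unpair.1])) ⟨⟨i, hm⟩, by simp [s2]⟩ (by
        rintro t ⟨⟨i, hi⟩, ht⟩
        have c1 := (hcl x t (F i) (Y i) (G.grow i) (G.inf' i)).2.1 hi
        obtain ⟨j, hij, hj⟩ := dense_met G Q _ (hopn _).2.2 i c1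
        obtain ⟨hD, a, ha1, ha2⟩ := (hcl x t (F j) (Y j) (G.grow j) (G.inf' j)).2.2.2 hj
        have hlen1 : (s2 t ++ [f t.length]).length ≤ t.length + 1 := by simp [s2]
        have hs : s2 t ++ [f t.length] = (List.range (t.length + 1)).map f := by
          rw [List.range_succ, List.map_append, ← ht]; simp
        have hok : ok S ρ x (F j) (s2 t ++ [f t.length]) := by
          rw [ok_iff G j _ hD ρ x _ hlen1, hs]
          exact hf _ (Nat.succ_pos _)
        refine ⟨Nat.pair a (f t.length), ⟨⟨j, ha2 _ hok⟩, ?_⟩, ?_⟩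
        · rw [s2_append, hs]
          congr 2
          simp
        · rw [Nat.unpair_pair]
          have hlen2 : (s1 t ++ [a]).length ≤ t.length + 1 := by simp [s1]
          exact (ok_iff G j _ hD ρ' x _ hlen2).1 ha1)
    refine (((hall x).2).2 ⟨fun k => (g k).unpair.1, fun m hm => ?_⟩) hx
    obtain ⟨n, rfl⟩ : ∃ n, m = n + 1 := ⟨m - 1, by omega⟩
    have h1 := (hg n).2
    rw [List.range_succ, List.map_append]
    have h2 : s1 ((List.range n).map g) = (List.range n).map (fun k => (g k).unpair.1) := by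
      unfold s1; rw [List.map_map]; rfl
    rw [h2] at h1
    exact h1

end Pool.Agent.W38.HY.Truth
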