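import Mathlib
import Pool.Agent.W562.HY.Defs
import Pool.Agent.W38.HY.Truth

/-!
Project HY: nearly optimal reservoirs (part NO).
-/

set_option autoImplicit false

namespace Pool.Agent.W38.HY.NO

open Pool.Agent.W562.HY

lemma cA_card (A : Set ℕ) (t : Finset ℕ) [DecidablePred (fun x => x ∈ A)] :
    cA A t = (t.filter (fun x => x ∈ A)).card := by
  unfold cA
  have : ((t : Set ℕ) ∩ A) = ((t.filter (fun x => x ∈ A) : Finset ℕ) : Set ℕ) := by
    ext x; simp
  rw [this, Set.ncard_coe_finset]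

lemma cA_le_card (A : Set ℕ) (t : Finset ℕ) : cA A t ≤ t.card := by
  classical
  rw [cA_card]; exact Finset.card_filter_le _ _

lemma cA_sdiff (A : Set ℕ) (s t : Finset ℕ) : cA A s ≤ cA A (s \ t) + cA A t := by
  classical
  rw [cA_card, cA_card, cA_card]
  refine (Finset.card_le_card ?_).trans (Finset.card_union_le _ _)
  intro x hx
  rw [Finset.mem_filter] at hx
  rw [Finset.mem_union, Finset.mem_filter, Finset.mem_filter, Finset.mem_sdiff]
  by_cases h : x ∈ t
  · exact Or.inr ⟨h, hx.2⟩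
  · exact Or.inl ⟨⟨hx.1, h⟩, hx.2⟩

lemma inf_of_mem {𝒰 : Ultrafilter ℕ} (hfree : ∀ k0, {k | k0 ≤ k} ∈ 𝒰) {s : Set ℕ} (hs : s ∈ 𝒰) :
    s.Infinite := by
  intro hf
  obtain ⟨N, hN⟩ := hf.bddAbove
  obtain ⟨k, hk1, hk2⟩ := Filter.nonempty_of_mem (Filter.inter_mem hs (hfree (N + 1)))
  have := hN hk1
  have hk2' : N + 1 ≤ k := hk2
  omega

theorem main : Pool.Agent.W562.HY.P_no := by
  classical
  intro S A 𝒰 hfree hD Y hsub
  obtain ⟨c0, hc0, hU0⟩ := hsub
  have hc1 : c0 ≤ 1 := by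
    obtain ⟨k, hk1, hk2⟩ := Filter.nonempty_of_mem hU0
    have h1 : (0:ℝ) < ((blk S Y k).card : ℝ) := by exact_mod_cast Finset.card_pos.2 hk1
    have h2 : (cA A (blk S Y k) : ℝ) ≤ ((blk S Y k).card : ℝ) := by
      exact_mod_cast cA_le_card A _
    by_contra h
    push Not at h
    nlinarith
  obtain ⟨b, hb⟩ := exists_nat_gt (2 / c0)
  have hbpos : (0:ℝ) < b := lt_trans (by positivity) hb
  have hb2 : 2 ≤ c0 * b := by
    rw [div_lt_iff₀ hc0] at hb; linarith
  set η : ℝ := 1 / b with hη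
  have hηpos : 0 < η := by positivity
  have hη2 : 2 * η ≤ c0 := by
    rw [hη, mul_one_div, div_le_iff₀ hbpos]; exact hb2
  have hη1 : η ≤ 1 / 2 := by linarith
  have hbη : (b : ℝ) * η = 1 := by rw [hη]; field_simp
  let Pr : ℕ → Prop := fun i => ∃ Y' : S.R, LeR S Y' Y ∧ {k | (blk S Y' k).Nonempty ∧
    c0 * (1 + η) ^ i * ((blk S Y' k).card : ℝ) ≤ cA A (blk S Y' k)} ∈ 𝒰
  have hKY : KK S Y ∈ 𝒰 := Filter.mem_of_superset hU0 (fun k hk => hk.1)
  have hPr0 : Pr 0 := by
    refine ⟨Y, ⟨fun _ _ h => h, inf_of_mem hfree hKY, 1, 1, one_pos, fun _ _ => le_rfl⟩, ?_⟩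
    filter_upwards [hU0] with k hk
    exact ⟨hk.1, by rw [pow_zero, mul_one]; exact hk.2⟩
  have hbound : ∀ i, Pr i → c0 * (1 + η) ^ i ≤ 1 := by
    rintro i ⟨Y', _, h⟩
    obtain ⟨k, hk1, hk2⟩ := Filter.nonempty_of_mem h
    have h1 : (0:ℝ) < ((blk S Y' k).card : ℝ) := by exact_mod_cast Finset.card_pos.2 hk1
    have h2 : (cA A (blk S Y' k) : ℝ) ≤ ((blk S Y' k).card : ℝ) := by
      exact_mod_cast cA_le_card A _
    by_contra h
    push Not at h
    nlinarith
  have hmax : ∃ i, Pr i ∧ ¬ Pr (i + 1) := by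
    by_contra h
    push Not at h
    have hall : ∀ i, Pr i := fun i => by
      induction i with
      | zero => exact hPr0
      | succ i ih => exact h i ih
    obtain ⟨n, hn⟩ := pow_unbounded_of_one_lt (1 / c0) (show (1:ℝ) < 1 + η by linarith)
    have := hbound n (hall n)
    rw [div_lt_iff₀ hc0] at hn
    linarith
  obtain ⟨i, ⟨Y', hY', hYU⟩, hnot⟩ := hmax
  set c : ℝ := c0 * (1 + η) ^ i with hc
  have hcc0 : c0 ≤ c := by
    rw [hc]
    exact le_mul_of_one_le_right hc0.le (one_le_pow₀ (by linarith))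
  have hcle : c ≤ 1 := hbound i ⟨Y', hY', hYU⟩
  have hcpos : 0 < c := lt_of_lt_of_le hc0 hcc0
  refine ⟨Y', 1, b, hY', one_pos, ?_, ?_⟩
  · filter_upwards [hYU] with k hk
    refine ⟨hk.1, ?_⟩
    have h1 := hk.2
    have h2 : (2 : ℝ) * ((blk S Y' k).card : ℝ) ≤ b * cA A (blk S Y' k) := by
      have h3 : (b : ℝ) * (c * ((blk S Y' k).card : ℝ)) ≤ b * cA A (blk S Y' k) :=
        mul_le_mul_of_nonneg_left h1 hbpos.le
      have h4 : 2 ≤ b * c := by nlinarith
      have h5 : (0:ℝ) ≤ ((blk S Y' k).card : ℝ) := Nat.cast_nonneg _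
      nlinarith
    have h6 : ((2 * 1 * (blk S Y' k).card : ℕ) : ℝ) ≤ ((b * cA A (blk S Y' k) : ℕ) : ℝ) := by
      push_cast; linarith
    exact_mod_cast h6
  · intro W hW
    by_contra hcon
    push Not at hcon
    set ε : ℝ := η ^ 2 * c with hε
    have hεpos : 0 < ε := by positivity
    have hnU := hcon ε hεpos
    have hcU := Ultrafilter.compl_mem_iff_notMem.2 hnU
    have hcε : 0 < c - ε := by
      have : η ^ 2 < 1 := by nlinarith
      rw [hε]; nlinarith
    obtain ⟨b', hb'⟩ := exists_nat_gt (1 / (c - ε))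
    have hb'2 : 1 ≤ b' * (c - ε) := by
      rw [div_lt_iff₀ hcε] at hb'; linarith
    obtain ⟨Z, hZ⟩ := hD Y' W 1 b'
    apply hnot
    have hgood : {k | (blk S Z k).Nonempty ∧
        c0 * (1 + η) ^ (i + 1) * ((blk S Z k).card : ℝ) ≤ cA A (blk S Z k)} ∈ 𝒰 := by
      filter_upwards [hW, hcU, hYU] with k hk1 hk2 hk3
      have hk2' : ¬ (ε * ((blk S Y' k).card : ℝ) ≤ cA A (blk S W k)) := hk2
      push Not at hk2'
      have hYpos : (0:ℝ) < ((blk S Y' k).card : ℝ) := by
        exact_mod_cast Finset.card_pos.2 hk3.1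
      have e1 : (cA A (blk S Y' k) : ℝ) ≤ cA A (blk S Y' k \ blk S W k) + cA A (blk S W k) := by
        exact_mod_cast cA_sdiff A _ _
      have e2 : (c - ε) * ((blk S Y' k).card : ℝ) ≤ cA A (blk S Y' k \ blk S W k) := by
        have := hk3.2
        linarith
      have e3 : (cA A (blk S Y' k \ blk S W k) : ℝ) ≤ ((blk S Y' k \ blk S W k).card : ℝ) := by
        exact_mod_cast cA_le_card A _
      have e4 : 1 * (blk S Y' k).card ≤ b' * (blk S Y' k \ blk S W k).card := by
        have h1 : ((blk S Y' k).card : ℝ) ≤ b' * ((blk S Y' k \ blk S W k).card : ℝ) := by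
          calc ((blk S Y' k).card : ℝ) = 1 * ((blk S Y' k).card : ℝ) := (one_mul _).symm
            _ ≤ (b' * (c - ε)) * ((blk S Y' k).card : ℝ) :=
                mul_le_mul_of_nonneg_right hb'2 hYpos.le
            _ = b' * ((c - ε) * ((blk S Y' k).card : ℝ)) := by ring
            _ ≤ b' * ((blk S Y' k \ blk S W k).card : ℝ) :=
                mul_le_mul_of_nonneg_left (e2.trans e3) (Nat.cast_nonneg _)
        rw [one_mul]
        exact_mod_cast h1
      have hZk := (hZ k).1 e4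
      rw [hZk]
      have e5 : (0:ℝ) < ((blk S Y' k \ blk S W k).card : ℝ) := by
        have : 0 < (c - ε) * ((blk S Y' k).card : ℝ) := mul_pos hcε hYpos
        linarith
      have e5' : 0 < (blk S Y' k \ blk S W k).card := by exact_mod_cast e5
      refine ⟨Finset.card_pos.1 e5', ?_⟩
      have e6 : ((blk S Y' k \ blk S W k).card : ℝ) =
          ((blk S Y' k).card : ℝ) - ((blk S W k).card : ℝ) := by
        rw [Finset.card_sdiff_of_subset hk1.1, Nat.cast_sub (Finset.card_le_card hk1.1)]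
      have e7 : η * ((blk S Y' k).card : ℝ) ≤ ((blk S W k).card : ℝ) := by
        have h1 : ((1 * (blk S Y' k).card : ℕ) : ℝ) ≤ ((b * (blk S W k).card : ℕ) : ℝ) := by
          exact_mod_cast hk1.2
        push_cast at h1
        calc η * ((blk S Y' k).card : ℝ) ≤ η * (b * ((blk S W k).card : ℝ)) :=
              mul_le_mul_of_nonneg_left (by linarith) hηpos.le
          _ = (b * η) * ((blk S W k).card : ℝ) := by ring
          _ = ((blk S W k).card : ℝ) := by rw [hbη, one_mul]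
      have e8 : ((blk S Y' k \ blk S W k).card : ℝ) ≤ (1 - η) * ((blk S Y' k).card : ℝ) := by
        rw [e6]; linarith
      have e9 : c0 * (1 + η) ^ (i + 1) = c * (1 + η) := by rw [hc, pow_succ]; ring
      rw [e9]
      have e10 : c - ε = c * (1 + η) * (1 - η) := by rw [hε]; ring
      calc c * (1 + η) * ((blk S Y' k \ blk S W k).card : ℝ)
          ≤ c * (1 + η) * ((1 - η) * ((blk S Y' k).card : ℝ)) :=
            mul_le_mul_of_nonneg_left e8 (by positivity)
        _ = (c - ε) * ((blk S Y' k).card : ℝ) := by rw [e10]; ring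
        _ ≤ _ := e2
    refine ⟨Z, Truth.LeR_trans ⟨?_, ?_, 1, b', one_pos, ?_⟩ hY', hgood⟩
    · intro k
      by_cases h : 1 * (blk S Y' k).card ≤ b' * (blk S Y' k \ blk S W k).card
      · rw [(hZ k).1 h]; exact Finset.sdiff_subset
      · rw [(hZ k).2 h]; exact Finset.empty_subset _
    · exact inf_of_mem hfree (Filter.mem_of_superset hgood (fun k hk => hk.1))
    · intro k hk
      by_cases h : 1 * (blk S Y' k).card ≤ b' * (blk S Y' k \ blk S W k).card
      · rw [(hZ k).1 h]; exact h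
      · exfalso
        have hk' : (blk S Z k).Nonempty := hk
        rw [(hZ k).2 h] at hk'
        exact Finset.not_nonempty_empty hk'

end Pool.Agent.W38.HY.NO
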